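import Pool.Agent.Helper57.PW.Defs

/-!
Modules C1 and C2 for MP_124889_co: a maximum cut and its levels.
-/

open MvPolynomial

namespace PoolPW

open Classical in
theorem c12_switch {V : Type*} [Fintype V] (M : SimpleGraph V) (T : V → ZMod 2)
    (hT : IsMaxCut M T) (Q : V → Prop) :
    (Finset.univ.filter (fun e : V × V => (inGraph M T).Adj e.1 e.2 ∧ ¬ (Q e.1 ↔ Q e.2))).card ≤
    (Finset.univ.filter (fun e : V × V => (cutGraph M T).Adj e.1 e.2 ∧ ¬ (Q e.1 ↔ Q e.2))).card := by
  have h := hT (fun v => T v + if Q v then 1 else 0)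
  unfold cutCount at h
  have key : ∀ x y : ZMod 2, ∀ p q : Prop, (x + (if p then 1 else 0) ≠ y + (if q then 1 else 0)) ↔
      ((x ≠ y ∧ (p ↔ q)) ∨ (x = y ∧ ¬ (p ↔ q))) := by
    intro x y p q
    by_cases hp : p <;> by_cases hq : q <;> simp only [hp, hq, if_true, if_false] <;>
      revert x y <;> decide
  have e1 : (Finset.univ.filter (fun e : V × V => M.Adj e.1 e.2 ∧
      (T e.1 + if Q e.1 then 1 else 0) ≠ (T e.2 + if Q e.2 then 1 else 0))).card =
      (Finset.univ.filter (fun e : V × V => (cutGraph M T).Adj e.1 e.2 ∧ (Q e.1 ↔ Q e.2))).card +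
      (Finset.univ.filter (fun e : V × V => (inGraph M T).Adj e.1 e.2 ∧ ¬ (Q e.1 ↔ Q e.2))).card := by
    rw [← Finset.card_union_of_disjoint]
    · congr 1
      ext e
      simp only [Finset.mem_filter, Finset.mem_univ, true_and, Finset.mem_union, key, cutGraph,
        inGraph]
      tauto
    · rw [Finset.disjoint_left]
      intro e h1 h2
      simp only [Finset.mem_filter, Finset.mem_univ, true_and] at h1 h2
      exact h2.2 h1.2
  have e2 : (Finset.univ.filter (fun e : V × V => M.Adj e.1 e.2 ∧ T e.1 ≠ T e.2)).card =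
      (Finset.univ.filter (fun e : V × V => (cutGraph M T).Adj e.1 e.2 ∧ (Q e.1 ↔ Q e.2))).card +
      (Finset.univ.filter (fun e : V × V => (cutGraph M T).Adj e.1 e.2 ∧ ¬ (Q e.1 ↔ Q e.2))).card := by
    rw [← Finset.card_union_of_disjoint]
    · congr 1
      ext e
      simp only [Finset.mem_filter, Finset.mem_univ, true_and, Finset.mem_union, cutGraph]
      tauto
    · rw [Finset.disjoint_left]
      intro e h1 h2
      simp only [Finset.mem_filter, Finset.mem_univ, true_and] at h1 h2
      exact h2.2 h1.2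
  rw [e1, e2] at h
  omega

open Classical in
/-- exactly half of the subsets separate two distinct elements -/
theorem c12_half {K : Type*} (R : Finset K) (a b : K) (ha : a ∈ R) (hab : a ≠ b) :
    2 * (R.powerset.filter (fun S => ¬ (a ∈ S ↔ b ∈ S))).card = 2 ^ R.card := by
  have h1 : (R.powerset.filter (fun S => ¬ (a ∈ S ↔ b ∈ S))).card =
      (R.powerset.filter (fun S => (a ∈ S ↔ b ∈ S))).card := by
    refine Finset.card_bij' (fun S _ => symmDiff S {a}) (fun S _ => symmDiff S {a}) ?_ ?_ ?_ ?_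
    · intro S hS
      simp only [Finset.mem_filter, Finset.mem_powerset] at hS ⊢
      refine ⟨?_, ?_⟩
      · intro x hx
        rw [Finset.mem_symmDiff] at hx
        rcases hx with hx | hx
        · exact hS.1 hx.1
        · have := Finset.mem_singleton.mp hx.1
          rw [this]; exact ha
      · simp only [Finset.mem_symmDiff, Finset.mem_singleton, hab.symm]
        tauto
    · intro S hS
      simp only [Finset.mem_filter, Finset.mem_powerset] at hS ⊢
      refine ⟨?_, ?_⟩
      · intro x hx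
        rw [Finset.mem_symmDiff] at hx
        rcases hx with hx | hx
        · exact hS.1 hx.1
        · have := Finset.mem_singleton.mp hx.1
          rw [this]; exact ha
      · simp only [Finset.mem_symmDiff, Finset.mem_singleton, hab.symm]
        tauto
    · intro S _
      exact symmDiff_symmDiff_cancel_right _ _
    · intro S _
      exact symmDiff_symmDiff_cancel_right _ _
  have h2 := Finset.card_filter_add_card_filter_not (s := R.powerset) (fun S => (a ∈ S ↔ b ∈ S))
  rw [Finset.card_powerset] at h2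
  omega

open Classical in
theorem c12_sum {V K : Type*} [Fintype V] (A : V → V → Prop) (κ : V → K) (R : Finset K)
    (hR : ∀ v, κ v ∈ R) :
    2 * ∑ S ∈ R.powerset,
      (Finset.univ.filter (fun e : V × V => A e.1 e.2 ∧ ¬ (κ e.1 ∈ S ↔ κ e.2 ∈ S))).card =
    2 ^ R.card * (Finset.univ.filter (fun e : V × V => A e.1 e.2 ∧ κ e.1 ≠ κ e.2)).card := by
  have h1 : ∀ S : Finset K,
      (Finset.univ.filter (fun e : V × V => A e.1 e.2 ∧ ¬ (κ e.1 ∈ S ↔ κ e.2 ∈ S))).card =
      ∑ e : V × V, if A e.1 e.2 ∧ ¬ (κ e.1 ∈ S ↔ κ e.2 ∈ S) then 1 else 0 := by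
    intro S
    rw [Finset.card_filter]
  simp_rw [h1]
  rw [Finset.sum_comm, Finset.mul_sum, Finset.card_filter, Finset.mul_sum]
  apply Finset.sum_congr rfl
  intro e _
  by_cases hA : A e.1 e.2
  · by_cases hk : κ e.1 = κ e.2
    · simp [hk]
    · have := c12_half R (κ e.1) (κ e.2) (hR _) hk
      simp only [hA, true_and, ne_eq, hk, not_false_eq_true, if_true, mul_one]
      rw [← this, Finset.card_filter]
  · simp [hA]

open Classical in
/-- Module C1 : averaging over 2-colourings of the level classes. -/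
theorem maxcut_levels {V K : Type*} [Fintype V] (M : SimpleGraph V) (T : V → ZMod 2)
    (hT : IsMaxCut M T) (κ : V → K) :
    (Finset.univ.filter (fun e : V × V => (inGraph M T).Adj e.1 e.2 ∧ κ e.1 ≠ κ e.2)).card ≤
      (Finset.univ.filter (fun e : V × V => (cutGraph M T).Adj e.1 e.2 ∧ κ e.1 ≠ κ e.2)).card
    ∧ ((Finset.univ.filter (fun e : V × V => (inGraph M T).Adj e.1 e.2 ∧ κ e.1 ≠ κ e.2)).card =
      (Finset.univ.filter (fun e : V × V => (cutGraph M T).Adj e.1 e.2 ∧ κ e.1 ≠ κ e.2)).card →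
      ∀ P : K → Prop,
      (Finset.univ.filter (fun e : V × V => (inGraph M T).Adj e.1 e.2 ∧ ¬ (P (κ e.1) ↔ P (κ e.2)))).card =
      (Finset.univ.filter (fun e : V × V => (cutGraph M T).Adj e.1 e.2 ∧ ¬ (P (κ e.1) ↔ P (κ e.2)))).card) := by
  set R : Finset K := Finset.univ.image κ with hRdef
  have hR : ∀ v, κ v ∈ R := fun v => Finset.mem_image_of_mem _ (Finset.mem_univ v)
  have s1 := c12_sum (inGraph M T).Adj κ R hR
  have s2 := c12_sum (cutGraph M T).Adj κ R hR
  have hle : ∀ S ∈ R.powerset,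
      (Finset.univ.filter (fun e : V × V => (inGraph M T).Adj e.1 e.2 ∧ ¬ (κ e.1 ∈ S ↔ κ e.2 ∈ S))).card ≤
      (Finset.univ.filter (fun e : V × V => (cutGraph M T).Adj e.1 e.2 ∧ ¬ (κ e.1 ∈ S ↔ κ e.2 ∈ S))).card := by
    intro S _
    convert c12_switch M T hT (fun v => κ v ∈ S)
  have hpos : 0 < 2 ^ R.card := by positivity
  refine ⟨?_, ?_⟩
  · have := Finset.sum_le_sum hle
    have h3 : 2 ^ R.card * (Finset.univ.filter (fun e : V × V => (inGraph M T).Adj e.1 e.2 ∧ κ e.1 ≠ κ e.2)).card ≤
      2 ^ R.card * (Finset.univ.filter (fun e : V × V => (cutGraph M T).Adj e.1 e.2 ∧ κ e.1 ≠ κ e.2)).card := by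
      rw [← s1, ← s2]
      omega
    exact Nat.le_of_mul_le_mul_left h3 hpos
  · intro heq P
    have h4 : ∑ S ∈ R.powerset, (Finset.univ.filter (fun e : V × V => (inGraph M T).Adj e.1 e.2 ∧ ¬ (κ e.1 ∈ S ↔ κ e.2 ∈ S))).card =
        ∑ S ∈ R.powerset, (Finset.univ.filter (fun e : V × V => (cutGraph M T).Adj e.1 e.2 ∧ ¬ (κ e.1 ∈ S ↔ κ e.2 ∈ S))).card := by
      rw [heq, ← s2] at s1
      omega
    have h5 := (Finset.sum_eq_sum_iff_of_le hle).mp h4 (R.filter P) (by simp)
    have h6 : ∀ v, κ v ∈ R.filter P ↔ P (κ v) := by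
      intro v
      rw [Finset.mem_filter]
      exact ⟨fun h => h.2, fun h => ⟨hR v, h⟩⟩
    simp only [h6] at h5
    exact h5

open Classical in
theorem c12_cutCard {V : Type*} [Fintype V] (M : SimpleGraph V) (T : V → ZMod 2) (η : V → ℝ) :
    (Finset.univ.filter (fun e : V × V => (cutGraph M T).Adj e.1 e.2 ∧ η e.1 ≠ η e.2)).card =
    2 * ((cutPairs M T).filter (fun e => η e.1 ≠ η e.2)).card := by
  have hz : ∀ x y : ZMod 2, x ≠ y → (x = 0 ∧ y = 1) ∨ (x = 1 ∧ y = 0) := by decide
  have h1 : (Finset.univ.filter (fun e : V × V => (cutGraph M T).Adj e.1 e.2 ∧ η e.1 ≠ η e.2)) =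
      ((cutPairs M T).filter (fun e => η e.1 ≠ η e.2)) ∪
      (((cutPairs M T).filter (fun e => η e.1 ≠ η e.2)).map (Equiv.prodComm V V).toEmbedding) := by
    ext e
    simp only [Finset.mem_filter, Finset.mem_univ, true_and, Finset.mem_union, cutPairs,
      Finset.mem_map, cutGraph]
    constructor
    · rintro ⟨⟨h1, h2⟩, h3⟩
      rcases hz _ _ h2 with h | h
      · left; exact ⟨⟨h1, h.1, h.2⟩, h3⟩
      · right
        refine ⟨(e.2, e.1), ⟨⟨h1.symm, h.2, h.1⟩, h3.symm⟩, rfl⟩
    · rintro (⟨⟨h1, h2, h3⟩, h4⟩ | ⟨f, ⟨⟨h1, h2, h3⟩, h4⟩, rfl⟩)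
      · exact ⟨⟨h1, by rw [h2, h3]; decide⟩, h4⟩
      · refine ⟨⟨h1.symm, ?_⟩, h4.symm⟩
        change T f.2 ≠ T f.1
        rw [h2, h3]; decide
  rw [h1, Finset.card_union_of_disjoint, Finset.card_map]
  · ring
  · rw [Finset.disjoint_left]
    intro e h1 h2
    simp only [Finset.mem_filter, Finset.mem_univ, true_and, cutPairs, Finset.mem_map] at h1 h2
    obtain ⟨f, ⟨⟨_, hf1, hf2⟩, _⟩, rfl⟩ := h2
    have : T f.2 = 0 := h1.1.2.1
    rw [hf2] at this
    exact absurd this (by decide)

open Classical in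
/-- Module C2 : the degree hypothesis of Theorem L for a maximum cut. -/
theorem maxcut_hyp {V : Type*} [Fintype V] (M : SimpleGraph V) (T : V → ZMod 2)
    (hT : IsMaxCut M T) (η : V → ℝ) :
    (Finset.univ.filter (fun e : V × V => (inGraph M T).Adj e.1 e.2 ∧ η e.1 ≠ η e.2)).card
     < 2 * ((cutPairs M T).filter (fun e => η e.1 ≠ η e.2)).card
       + 2 * (if Jfam M T ((cutPairs M T).filter (fun e => η e.1 = η e.2)) then 1 else 0) := by
  have hl := (maxcut_levels M T hT η).1
  have hc := c12_cutCard M T η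
  by_cases hJ : Jfam M T ((cutPairs M T).filter (fun e => η e.1 = η e.2))
  · rw [if_pos hJ]
    omega
  · rw [if_neg hJ]
    unfold Jfam at hJ
    push Not at hJ
    obtain ⟨u, v, huv, hnuv⟩ := hJ
    set G' : SimpleGraph V := pairGraph ((cutPairs M T).filter (fun e => η e.1 = η e.2)) ⊔
      inGraph M T with hG'
    -- in edges do not leave the component of u
    have hin : ∀ x y, (inGraph M T).Adj x y → (G'.Reachable u x ↔ G'.Reachable u y) := by
      intro x y hxy
      have hadj : G'.Adj x y := by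
        rw [hG', SimpleGraph.sup_adj]; right; exact hxy
      exact ⟨fun h => h.trans hadj.reachable, fun h => h.trans hadj.symm.reachable⟩
    have hz : ∀ x y : ZMod 2, x ≠ y → (x = 0 ∧ y = 1) ∨ (x = 1 ∧ y = 0) := by decide
    have hcut : ∀ x y, (cutGraph M T).Adj x y → η x = η y →
        (G'.Reachable u x ↔ G'.Reachable u y) := by
      intro x y hxy hη
      have hadj : G'.Adj x y := by
        rw [hG', SimpleGraph.sup_adj]; left
        refine ⟨hxy.1.ne, ?_⟩
        simp only [Finset.mem_filter, cutPairs, Finset.mem_univ, true_and]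
        rcases hz _ _ hxy.2 with h | h
        · left; exact ⟨⟨hxy.1, h.1, h.2⟩, hη⟩
        · right; exact ⟨⟨hxy.1.symm, h.2, h.1⟩, hη.symm⟩
      exact ⟨fun h => h.trans hadj.reachable, fun h => h.trans hadj.symm.reachable⟩
    have hlev := (maxcut_levels M T hT (fun x => ((η x, G'.Reachable u x) : ℝ × Prop))).2
    have e1 : (Finset.univ.filter (fun e : V × V => (inGraph M T).Adj e.1 e.2 ∧
        ((η e.1, G'.Reachable u e.1) : ℝ × Prop) ≠ (η e.2, G'.Reachable u e.2))) =
        (Finset.univ.filter (fun e : V × V => (inGraph M T).Adj e.1 e.2 ∧ η e.1 ≠ η e.2)) := by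
      apply Finset.filter_congr
      intro e _
      refine and_congr_right ?_
      intro hadj
      have := hin _ _ hadj
      rw [ne_eq, Prod.mk.injEq]
      simp only [propext this, and_true, ne_eq]
    have e2 : (Finset.univ.filter (fun e : V × V => (cutGraph M T).Adj e.1 e.2 ∧
        ((η e.1, G'.Reachable u e.1) : ℝ × Prop) ≠ (η e.2, G'.Reachable u e.2))) =
        (Finset.univ.filter (fun e : V × V => (cutGraph M T).Adj e.1 e.2 ∧ η e.1 ≠ η e.2)) := by
      apply Finset.filter_congr
      intro e _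
      refine and_congr_right ?_
      intro hadj
      rw [ne_eq, Prod.mk.injEq, ne_eq, not_iff_not]
      constructor
      · intro h; exact h.1
      · intro h; exact ⟨h, propext (hcut _ _ hadj h)⟩
    by_contra hcon
    have heq : (Finset.univ.filter (fun e : V × V => (inGraph M T).Adj e.1 e.2 ∧ η e.1 ≠ η e.2)).card =
      (Finset.univ.filter (fun e : V × V => (cutGraph M T).Adj e.1 e.2 ∧ η e.1 ≠ η e.2)).card := by
      omega
    have h7 := hlev (by
      have a1 := congrArg Finset.card e1
      have a2 := congrArg Finset.card e2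
      have a3 := a1.trans (heq.trans a2.symm)
      convert a3) (fun k => k.2)
    have h8 : (Finset.univ.filter (fun e : V × V => (inGraph M T).Adj e.1 e.2 ∧
        ¬ (G'.Reachable u e.1 ↔ G'.Reachable u e.2))).card = 0 := by
      rw [Finset.card_eq_zero, Finset.filter_eq_empty_iff]
      intro e _ h
      exact h.2 (hin _ _ h.1)
    have h9 : (Finset.univ.filter (fun e : V × V => (cutGraph M T).Adj e.1 e.2 ∧
        ¬ (G'.Reachable u e.1 ↔ G'.Reachable u e.2))).card = 0 := by
      rw [← h8]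
      convert h7.symm
    rw [Finset.card_eq_zero, Finset.filter_eq_empty_iff] at h9
    have hall : ∀ x y, M.Adj x y → (G'.Reachable u x ↔ G'.Reachable u y) := by
      intro x y hxy
      by_cases ht : T x = T y
      · exact hin x y ⟨hxy, ht⟩
      · by_contra hne
        exact h9 (Finset.mem_univ (x, y)) ⟨⟨hxy, ht⟩, hne⟩
    apply hnuv
    obtain ⟨w⟩ := huv
    have : ∀ (x y : V) (w : M.Walk x y), G'.Reachable u x → G'.Reachable u y := by
      intro x y w
      induction w with
      | nil => exact id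
      | cons h _ ih => exact fun hx => ih ((hall _ _ h).mp hx)
    exact this _ _ w (SimpleGraph.Reachable.refl u)

end PoolPW
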