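import Pool.Agent.Helper35.PW.C12
import Pool.Agent.Helper95.PW.ThmL
import Pool.Agent.Helper12.PW.B
import Pool.Agent.Helper70.PW.C345

/-!
Module D for MP_124889_co: the feasible case.
-/

open MvPolynomial

namespace PoolPW

open Classical in
/-- the incidence coefficients of a pair -/
noncomputable def dB {V : Type*} (e : V × V) (v : V) : ℝ :=
  (if v = e.1 then 1 else 0) - (if v = e.2 then 1 else 0)

open Classical in
theorem dB_sum {V : Type*} [Fintype V] (e : V × V) (y : V → ℝ) :
    ∑ v, dB e v * y v = y e.1 - y e.2 := by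
  simp [dB, sub_mul, Finset.sum_sub_distrib]

/-- the non-cut edges, each oriented once -/
noncomputable def dIn {V : Type*} [Fintype V] (M : SimpleGraph V) (T : V → ZMod 2) :
    Finset (V × V) := by
  classical
  exact Finset.univ.filter (fun e : V × V => (inGraph M T).Adj e.1 e.2 ∧
    Fintype.equivFin V e.1 < Fintype.equivFin V e.2)

theorem mem_dIn {V : Type*} [Fintype V] (M : SimpleGraph V) (T : V → ZMod 2) (e : V × V) :
    e ∈ dIn M T ↔ (inGraph M T).Adj e.1 e.2 ∧
      Fintype.equivFin V e.1 < Fintype.equivFin V e.2 := by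
  unfold dIn
  simp

open Classical in
theorem dIn_card {V : Type*} [Fintype V] (M : SimpleGraph V) (T : V → ZMod 2) (η : V → ℝ) :
    2 * ((dIn M T).filter (fun e => η e.1 ≠ η e.2)).card =
    (Finset.univ.filter (fun e : V × V => (inGraph M T).Adj e.1 e.2 ∧ η e.1 ≠ η e.2)).card := by
  have h1 : (Finset.univ.filter (fun e : V × V => (inGraph M T).Adj e.1 e.2 ∧ η e.1 ≠ η e.2)) =
      ((dIn M T).filter (fun e => η e.1 ≠ η e.2)) ∪
      (((dIn M T).filter (fun e => η e.1 ≠ η e.2)).map (Equiv.prodComm V V).toEmbedding) := by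
    ext e
    simp only [Finset.mem_filter, Finset.mem_univ, true_and, Finset.mem_union, mem_dIn,
      Finset.mem_map]
    constructor
    · rintro ⟨h1, h3⟩
      have hne : Fintype.equivFin V e.1 ≠ Fintype.equivFin V e.2 := by
        intro h
        exact h1.ne ((Fintype.equivFin V).injective h)
      rcases lt_or_gt_of_ne hne with h | h
      · left; exact ⟨⟨h1, h⟩, h3⟩
      · right
        exact ⟨(e.2, e.1), ⟨⟨h1.symm, h⟩, h3.symm⟩, rfl⟩
    · rintro (⟨⟨h1, h2⟩, h4⟩ | ⟨f, ⟨⟨h1, h2⟩, h4⟩, rfl⟩)
      · exact ⟨h1, h4⟩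
      · exact ⟨h1.symm, h4.symm⟩
  rw [h1, Finset.card_union_of_disjoint, Finset.card_map]
  · ring
  · rw [Finset.disjoint_left]
    intro e h1 h2
    simp only [Finset.mem_filter, mem_dIn, Finset.mem_map] at h1 h2
    obtain ⟨f, ⟨⟨_, hf1⟩, _⟩, rfl⟩ := h2
    have h3 : Fintype.equivFin V f.2 < Fintype.equivFin V f.1 := h1.1.2
    exact absurd hf1 (not_lt.mpr h3.le)

/-- the product over the non-cut edges -/
noncomputable def dPoly {V : Type*} [Fintype V] (M : SimpleGraph V) (T : V → ZMod 2) :
    MvPolynomial V ℝ :=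
  ∏ h ∈ dIn M T, (X h.1 - X h.2)

theorem dPoly_ne {V : Type*} [Fintype V] (M : SimpleGraph V) (T : V → ZMod 2) :
    dPoly M T ≠ 0 := by
  unfold dPoly
  rw [Finset.prod_ne_zero_iff]
  intro e he h
  rw [mem_dIn] at he
  have h2 : (X e.1 : MvPolynomial V ℝ) = X e.2 := sub_eq_zero.mp h
  exact he.1.ne (MvPolynomial.X_injective h2)

open Classical in
theorem dPoly_line {V : Type*} [Fintype V] (M : SimpleGraph V) (T : V → ZMod 2)
    (ξ η : V → ℝ) :
    (line (dPoly M T) ξ η).natDegree ≤ ((dIn M T).filter (fun e => η e.1 ≠ η e.2)).card := by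
  unfold line dPoly
  rw [map_prod]
  refine (Polynomial.natDegree_prod_le _ _).trans ?_
  rw [Finset.card_filter]
  apply Finset.sum_le_sum
  intro e _
  have h1 : (aeval (fun v => Polynomial.C (ξ v) + Polynomial.C (η v) * Polynomial.X)
      (X e.1 - X e.2 : MvPolynomial V ℝ) : Polynomial ℝ) =
      Polynomial.C (η e.1 - η e.2) * Polynomial.X + Polynomial.C (ξ e.1 - ξ e.2) := by
    rw [map_sub, aeval_X, aeval_X, Polynomial.C_sub, Polynomial.C_sub]
    ring
  rw [h1]
  split_ifs with h
  · exact Polynomial.natDegree_linear_le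
  · push Not at h
    rw [h, sub_self, Polynomial.C_0, zero_mul, zero_add, Polynomial.natDegree_C]

theorem pairGraph_mono {V : Type*} {Z Z' : Finset (V × V)} (h : Z ⊆ Z') :
    pairGraph Z ≤ pairGraph Z' := by
  intro x y hxy
  exact ⟨hxy.1, hxy.2.imp (fun h' => h h') (fun h' => h h')⟩

theorem Jfam_mono {V : Type*} (M : SimpleGraph V) (T : V → ZMod 2) {Z Z' : Finset (V × V)}
    (h : Z ⊆ Z') (hJ : Jfam M T Z) : Jfam M T Z' := by
  intro u v huv
  exact (hJ u v huv).mono (sup_le_sup_right (pairGraph_mono h) _)

open Classical in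
/-- the combinatorial core: a set of toggles with a nonzero coefficient -/
theorem exists_toggles {V : Type*} [Fintype V] (M : SimpleGraph V) (T : V → ZMod 2)
    (hT : IsMaxCut M T) :
    ∃ Y : Finset (V × V), Y ⊆ cutPairs M T ∧ Jfam M T (cutPairs M T \ Y) ∧
      ∀ (k : V → ℝ) (γ : ℝ), γ ≠ 0 → ∃ z : V × V → ℝ, (∀ i, z i = 0 ∨ z i = γ) ∧
        (∀ i ∉ Y, z i = 0) ∧
        ∀ h ∈ dIn M T, k h.1 + ∑ i, dB i h.1 * z i ≠ k h.2 + ∑ i, dB i h.2 * z i := by
  obtain ⟨cc, hcc⟩ := thmL (V := V) (ι := V × V) dB (cutPairs M T) ⊤ (Jfam M T)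
    (fun Z Z' hZ _ hJ => Jfam_mono M T hZ hJ)
    (by
      intro Z _ k _ hn hJ
      obtain ⟨w, hw1, hw2⟩ := jfam_sep M T Z k hn (by
        refine Jfam_mono M T (fun x hx => ?_) hJ
        simpa only [Finset.mem_insert] using hx)
      refine ⟨w, Submodule.mem_top, ?_, ?_⟩
      · intro j hj
        rw [dB_sum, hw1 j hj, sub_self]
      · rw [dB_sum]
        exact sub_ne_zero.mpr hw2)
    (dPoly M T)
    (by
      intro ξ _ η _ n hn
      apply Polynomial.coeff_eq_zero_of_natDegree_lt
      have h1 := dPoly_line M T ξ η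
      have h2 := dIn_card M T η
      have h3 := maxcut_hyp M T hT η
      have e1 : ((cutPairs M T).filter (fun i => ∑ v, dB i v * η v ≠ 0)) =
          ((cutPairs M T).filter (fun e => η e.1 ≠ η e.2)) := by
        apply Finset.filter_congr
        intro e _
        rw [dB_sum, ne_eq, ne_eq, sub_eq_zero]
      have e2 : ((cutPairs M T).filter (fun i => ∑ v, dB i v * η v = 0)) =
          ((cutPairs M T).filter (fun e => η e.1 = η e.2)) := by
        apply Finset.filter_congr
        intro e _
        rw [dB_sum, sub_eq_zero]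
      rw [e1, e2] at hn
      split_ifs at hn h3 <;> omega)
  obtain ⟨Y, hY, hne⟩ := fischer (V := V) (ι := V × V) dB (dPoly M T) (dPoly_ne M T)
    ((cutPairs M T).powerset.filter (fun Y => Jfam M T (cutPairs M T \ Y))) cc
    (fun y => by
      rw [hcc y Submodule.mem_top]
      refine Finset.sum_congr (Finset.ext fun Y => ?_) fun _ _ => rfl
      rw [Finset.mem_filter, Finset.mem_filter]
      refine and_congr_right fun _ => ?_
      constructor
      · intro hJ
        refine Jfam_mono M T (fun x hx => ?_) hJ
        simpa only [Finset.mem_sdiff] using hx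
      · intro hJ
        refine Jfam_mono M T (fun x hx => ?_) hJ
        simpa only [Finset.mem_sdiff] using hx)
  rw [Finset.mem_filter, Finset.mem_powerset] at hY
  refine ⟨Y, hY.1, hY.2, ?_⟩
  intro k γ hγ
  exact toggles (V := V) (ι := V × V) (κ := V × V) (dIn M T) Prod.fst Prod.snd dB Y hne k γ hγ

open Classical in
/-- Module D : the feasible case (assembly of the above). -/
theorem feasible {V : Type*} [Fintype V] (M : SimpleGraph V) (T : V → ZMod 2)
    (hT : IsMaxCut M T) (a b c : ℝ) (hac : a ≠ c) (Φ : ℝ → ZMod 2)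
    (h1 : ∀ t, Φ (t + (c - a)) = Φ t) (h2 : ∀ t, Φ (t + (b - a)) = Φ t + 1)
    (r : V → ℝ)
    (hpar : ∀ u, ∑ v ∈ Finset.univ.filter (fun v => M.Reachable u v),
      (Φ (r v + a * (Finset.univ.filter (fun x => M.Adj v x)).card) + T v) = 0) :
    ∃ w : V → V → ℝ, (∀ u v, w u v = w v u) ∧ (∀ u v, w u v = a ∨ w u v = b ∨ w u v = c) ∧
      (∀ v, (∃ u, M.Adj v u) → ∃ u, M.Adj v u ∧ w v u ≠ c) ∧
      (∀ v, Φ (val M r w v) = T v) ∧
      ∀ u v, M.Adj u v → val M r w u ≠ val M r w v := by
  obtain ⟨Y, hYI, hJ, htog⟩ := exists_toggles M T hT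
  have hbc : b ≠ c := by
    intro h
    have e1 := h1 0
    have e2 := h2 0
    rw [h, e1] at e2
    have : ∀ x : ZMod 2, x ≠ x + 1 := by decide
    exact this _ e2
  -- the graph of untoggled edges
  set N : SimpleGraph V := pairGraph (cutPairs M T \ Y) ⊔ inGraph M T with hN
  have hNM : N ≤ M := by
    intro x y hxy
    rw [hN, SimpleGraph.sup_adj] at hxy
    rcases hxy with h | h
    · rcases h.2 with h' | h'
      · have := (Finset.mem_sdiff.mp h').1
        simp only [cutPairs, Finset.mem_filter, Finset.mem_univ, true_and] at this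
        exact this.1
      · have := (Finset.mem_sdiff.mp h').1
        simp only [cutPairs, Finset.mem_filter, Finset.mem_univ, true_and] at this
        exact this.1.symm
    · exact h.1
  have hreach : ∀ u v, N.Reachable u v ↔ M.Reachable u v :=
    fun u v => ⟨fun h => h.mono hNM, fun h => hJ u v h⟩
  have hNY : ∀ u v, N.Adj u v → (u, v) ∉ Y ∧ (v, u) ∉ Y := by
    intro u v huv
    rw [hN, SimpleGraph.sup_adj] at huv
    have hI : ∀ x y, (x, y) ∈ Y → M.Adj x y ∧ T x = 0 ∧ T y = 1 := by
      intro x y hxy
      have := hYI hxy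
      simpa only [cutPairs, Finset.mem_filter, Finset.mem_univ, true_and] using this
    have hI' : ∀ x y, (x, y) ∈ cutPairs M T \ Y → T x = 0 ∧ T y = 1 ∧ (x, y) ∉ Y := by
      intro x y hxy
      have h' := Finset.mem_sdiff.mp hxy
      have := h'.1
      simp only [cutPairs, Finset.mem_filter, Finset.mem_univ, true_and] at this
      exact ⟨this.2.1, this.2.2, h'.2⟩
    rcases huv with h | h
    · rcases h.2 with h' | h'
      · obtain ⟨g1, g2, g3⟩ := hI' _ _ h'
        refine ⟨g3, fun h4 => ?_⟩
        have := (hI _ _ h4).2.1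
        rw [g2] at this
        exact absurd this (by decide)
      · obtain ⟨g1, g2, g3⟩ := hI' _ _ h'
        refine ⟨fun h4 => ?_, g3⟩
        have := (hI _ _ h4).2.1
        rw [g2] at this
        exact absurd this (by decide)
    · refine ⟨fun h4 => ?_, fun h4 => ?_⟩
      · have := hI _ _ h4
        have h5 := h.2
        rw [this.2.1, this.2.2] at h5
        exact absurd h5 (by decide)
      · have := hI _ _ h4
        have h5 := h.2
        rw [this.2.1, this.2.2] at h5
        exact absurd h5 (by decide)
  obtain ⟨F, hFN, hF⟩ := exists_join N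
    (fun v => Φ (r v + a * (Finset.univ.filter (fun x => M.Adj v x)).card) + T v)
    (by
      intro u
      rw [← hpar u]
      apply Finset.sum_congr
      · ext v
        simp only [Finset.mem_filter, Finset.mem_univ, true_and]
        exact hreach u v
      · intro _ _; rfl)
  -- the default labels
  set w0 : V → V → ℝ := fun u v => if F.Adj u v then b else a with hw0
  set ε : V → ℝ := fun v => if T v = 0 then 1 else -1 with hε
  obtain ⟨z, hz, hzY, hzin⟩ := htog
    (fun v => ε v * (r v + ∑ u ∈ Finset.univ.filter (fun u => M.Adj v u), w0 v u)) (c - a)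
    (sub_ne_zero.mpr hac.symm)
  have hYprop : ∀ x y, (x, y) ∈ Y → M.Adj x y ∧ T x = 0 ∧ T y = 1 := by
    intro x y hxy
    have := hYI hxy
    simpa only [cutPairs, Finset.mem_filter, Finset.mem_univ, true_and] using this
  have hzero1 : ∀ x y, T x ≠ 0 → z (x, y) = 0 := by
    intro x y hx
    apply hzY
    intro h
    exact hx (hYprop _ _ h).2.1
  have hzero2 : ∀ x y, T y ≠ 1 → z (x, y) = 0 := by
    intro x y hx
    apply hzY
    intro h
    exact hx (hYprop _ _ h).2.2
  have hzero3 : ∀ x y, ¬ M.Adj x y → z (x, y) = 0 := by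
    intro x y hx
    apply hzY
    intro h
    exact hx (hYprop _ _ h).1
  set w : V → V → ℝ := fun u v => w0 u v + z (u, v) + z (v, u) with hw
  have h01 : ∀ x : ZMod 2, x = 0 ∨ x = 1 := by decide
  have hsym : ∀ u v, w u v = w v u := by
    intro u v
    simp only [hw, hw0, SimpleGraph.adj_comm]
    ring
  have htoggle : ∀ u v, z (u, v) + z (v, u) = 0 ∨ z (u, v) + z (v, u) = c - a := by
    intro u v
    rcases h01 (T u) with hu | hu
    · have h3 : z (v, u) = 0 := hzero2 v u (by rw [hu]; decide)
      rw [h3, add_zero]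
      exact hz _
    · have h3 : z (u, v) = 0 := hzero1 u v (by rw [hu]; decide)
      rw [h3, zero_add]
      exact hz _
  -- the value at a vertex
  have hval : ∀ v, ∑ i, dB i v * z i = ε v * ∑ u ∈ Finset.univ.filter (fun u => M.Adj v u),
      (z (v, u) + z (u, v)) := by
    intro v
    rw [Fintype.sum_prod_type]
    have hL : ∀ x y, dB (x, y) v * z (x, y) =
        (if v = x then z (x, y) else 0) - (if v = y then z (x, y) else 0) := by
      intro x y
      simp only [dB, sub_mul, ite_mul, one_mul, zero_mul]
    simp_rw [hL, Finset.sum_sub_distrib]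
    have hA : ∑ x, ∑ y, (if v = x then z (x, y) else 0) = ∑ y, z (v, y) := by
      rw [Finset.sum_comm]
      apply Finset.sum_congr rfl
      intro y _
      simp
    have hB : ∑ x, ∑ y, (if v = y then z (x, y) else 0) = ∑ x, z (x, v) := by
      apply Finset.sum_congr rfl
      intro y _
      simp
    rw [hA, hB]
    have hC : ∑ u ∈ Finset.univ.filter (fun u => M.Adj v u), (z (v, u) + z (u, v)) =
        ∑ y, z (v, y) + ∑ x, z (x, v) := by
      rw [← Finset.sum_add_distrib, Finset.sum_filter]
      apply Finset.sum_congr rfl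
      intro y _
      split_ifs with h
      · rfl
      · rw [hzero3 v y h, hzero3 y v (fun h' => h h'.symm), add_zero]
    rw [hC]
    rcases h01 (T v) with hv | hv
    · have h3 : ∑ x, z (x, v) = 0 :=
        Finset.sum_eq_zero (fun x _ => hzero2 x v (by rw [hv]; decide))
      simp only [hε, hv, if_true, h3]
      ring
    · have h3 : ∑ y, z (v, y) = 0 :=
        Finset.sum_eq_zero (fun x _ => hzero1 v x (by rw [hv]; decide))
      have h4 : ¬ ((1 : ZMod 2) = 0) := by decide
      simp only [hε, hv, h3, h4, if_false]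
      ring
  have hvalw : ∀ v, val M r w v =
      (r v + ∑ u ∈ Finset.univ.filter (fun u => M.Adj v u), w0 v u) +
      ∑ u ∈ Finset.univ.filter (fun u => M.Adj v u), (z (v, u) + z (u, v)) := by
    intro v
    unfold val
    simp only [hw]
    rw [add_assoc, ← Finset.sum_add_distrib]
    congr 1
    apply Finset.sum_congr rfl
    intro u _
    ring
  have hεε : ∀ v, ε v * ε v = 1 := by
    intro v
    simp only [hε]
    split_ifs <;> norm_num
  have hparity : ∀ v, Φ (val M r w v) = T v := by
    intro v
    have hP1 : ∀ (S : Finset V) (t : ℝ),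
        Φ (t + ∑ u ∈ S, (z (v, u) + z (u, v))) = Φ t := by
      intro S
      induction S using Finset.induction_on with
      | empty => intro t; rw [Finset.sum_empty, add_zero]
      | insert x S hx ih =>
        intro t
        rw [Finset.sum_insert hx, ← add_assoc, ih]
        rcases htoggle v x with h | h
        · rw [h, add_zero]
        · rw [h, h1]
    have hP2 : ∀ (S : Finset V) (t : ℝ),
        Φ (t + ∑ u ∈ S, w0 v u) =
          Φ (t + a * S.card) + ((S.filter (fun u => F.Adj v u)).card : ZMod 2) := by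
      intro S
      induction S using Finset.induction_on with
      | empty => intro t; simp
      | insert x S hx ih =>
        intro t
        rw [Finset.sum_insert hx, ← add_assoc, ih, Finset.card_insert_of_notMem hx,
          Finset.filter_insert]
        by_cases hFx : F.Adj v x
        · have e1 : w0 v x = b := by simp [hw0, hFx]
          rw [e1, if_pos hFx, Finset.card_insert_of_notMem
            (fun h => hx (Finset.mem_filter.mp h).1)]
          have e2 : t + b + a * (S.card : ℝ) =
              (t + a * ((S.card + 1 : ℕ) : ℝ)) + (b - a) := by push_cast; ring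
          rw [e2, h2]
          push_cast
          ring
        · have e1 : w0 v x = a := by simp [hw0, hFx]
          rw [e1, if_neg hFx]
          have e2 : t + a + a * (S.card : ℝ) =
              (t + a * ((S.card + 1 : ℕ) : ℝ)) := by push_cast; ring
          rw [e2]
    rw [hvalw, hP1, hP2]
    have hFM : (Finset.univ.filter (fun u => M.Adj v u)).filter (fun u => F.Adj v u) =
        Finset.univ.filter (fun u => F.Adj v u) := by
      ext u
      simp only [Finset.mem_filter, Finset.mem_univ, true_and]
      exact ⟨fun h => h.2, fun h => ⟨hNM (hFN h), h⟩⟩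
    rw [hFM, hF v]
    have : ∀ x y : ZMod 2, x + (x + y) = y := by decide
    exact this _ _
  refine ⟨w, hsym, ?_, ?_, hparity, ?_⟩
  · intro u v
    by_cases hFuv : F.Adj u v
    · right; left
      have hn := hNY u v (hFN hFuv)
      simp only [hw, hw0, hFuv, if_true, hzY _ hn.1, hzY _ hn.2, add_zero]
    · have e1 : w u v = a + (z (u, v) + z (v, u)) := by
        simp only [hw, hw0, hFuv, if_false]
        ring
      rcases htoggle u v with h | h
      · left; rw [e1, h, add_zero]
      · right; right; rw [e1, h]; ring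
  · rintro v ⟨u, hvu⟩
    have hr : N.Reachable v u := (hreach v u).mpr hvu.reachable
    obtain ⟨p⟩ := hr
    cases p with
    | nil => exact absurd rfl hvu.ne
    | @cons _ x _ h _ =>
      refine ⟨x, hNM h, ?_⟩
      have hn := hNY v x h
      have : w v x = w0 v x := by
        simp only [hw, hzY _ hn.1, hzY _ hn.2, add_zero]
      rw [this]
      simp only [hw0]
      split_ifs
      · exact hbc
      · exact hac
  · intro u v huv
    by_cases ht : T u = T v
    · have hin : ∀ x y, (x, y) ∈ dIn M T → T x = T y → val M r w x ≠ val M r w y := by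
        intro x y hxy hxyT heq
        have h3 := hzin (x, y) hxy
        apply h3
        have hexy : ε x = ε y := by simp only [hε, hxyT]
        change ε x * _ + _ = ε y * _ + _
        rw [hval x, hval y, ← mul_add, ← mul_add, ← hvalw x, ← hvalw y, heq, hexy]
      have hne : Fintype.equivFin V u ≠ Fintype.equivFin V v := by
        intro h
        exact huv.ne ((Fintype.equivFin V).injective h)
      rcases lt_or_gt_of_ne hne with h | h
      · exact hin u v ((mem_dIn M T _).mpr ⟨⟨huv, ht⟩, h⟩) ht
      · exact (hin v u ((mem_dIn M T _).mpr ⟨⟨huv.symm, ht.symm⟩, h⟩) ht.symm).symm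
    · intro heq
      apply ht
      rw [← hparity u, ← hparity v, heq]

end PoolPW
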